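import Pool.Agent.H441.UA.Key
import Pool.Graph.R_pool_sql_team_seeded_63374d34.N254.SQ.Fin3
import Pool.Graph.R_pool_sql_team_seeded_63374d34.N254.SQ.IdlR
import Pool.Graph.R_pool_sql_team_seeded_63374d34.N254.SQ.DenseR
import Pool.Graph.R_pool_sql_team_seeded_63374d34.N254.SQ.NullR
import Pool.Graph.R_pool_sql_team_seeded_63374d34.N254.SQ.RestrR

/-!
# Lang's conjecture on rational points is a question on systems of diagonal equations

MP_2ae8fe_ag, Q1. Let `m ≥ 2` be fixed (for example `m = 2`), `K` a subfield of `ℂ`, and `D` a symmetric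
subset of `K` which contains `1` and generates the vector space `K` over `ℚ`; for `K = ℚ` one can take
`D = {1, -1}`.

**Theorem 1.** Let `X` be any projective variety over `K` in `P^n` (any dimension, any singularities).
There are a system of diagonal equations

`Y : c_i0 y_0 ^ m + ⋯ + c_iN y_N ^ m = 0`, `i < k`, with coefficients in `D ∪ {0}`,

and forms `φ_0, …, φ_N` over `K` of the same degree, among them all monomials of this degree, so that
`φ : P^n → P^N` is a closed embedding, such that `X = φ⁻¹(Y)` and every closed subvariety of `Y` over `ℂ`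
of positive dimension is of general type or contained in one of the finitely many copies
`{(ζ_0 φ_0(x) : … : ζ_N φ_N(x)) : x ∈ X}`, `ζ_j ^ m = 1`, of `X`.

**Theorem 2.** Lang's conjecture (the `K`-rational points of a projective variety over `K` of general
type and positive dimension are not Zariski dense) for all projective varieties over `K` is equivalent
to the following statement: for no system `Y : ∑_j c_ij y_j ^ m = 0`, `i < k`, with coefficients in
`D ∪ {0}` has the Zariski closure of `Y(K)` a component of positive dimension which is of general type.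

So over `ℚ` the conjecture is about the rational solutions of systems of equations of the form
`∑_j ± y_j ^ 2 = 0`: about the points of linear subspaces of `P^N` all of whose coordinates are squares
(up to a common factor).

Proof. See `Pool/Agent/H441/UA`. The `m`-th powers of the coordinates of a point of `Y` over a function
field are the values of a linear functional on the `m`-th powers of many linear forms in the
monomials. The restrictions of the functional to pencils are polynomials of degree at most `m` whose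
values at many constants are `m`-th powers. If the function field is not of general type, then all
these polynomials which are not themselves `m`-th powers are, up to constant factors, defined over
one common smaller field which is algebraically closed in the function field; this follows from a
theorem of the library on one polynomial (`core_rad`), applied to the product of suitable translates
of all of them. From this one deduces that the functional is the evaluation at a point of the
Veronese image of `X`.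
-/

set_option autoImplicit false

namespace Pool.Agent.Results.MP_2ae8fe_ag.DiagonalSystemsSuffice

open MvPolynomial
open Pool.Agent.W602.GT (SubVar GeneralType)
open Pool.Agent.N254.SQ (IsForm Component OnPoints GenericPoint)

/-- Lang's conjecture for all geometrically irreducible projective varieties of positive dimension
over `K`: if `V(S)` is of general type, then some form which does not vanish at the generic point
vanishes at all `K`-rational points. -/
def Lang (K : Subfield ℂ) : Prop :=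
  ∀ (n : ℕ) (S : Set (MvPolynomial (Fin (n + 1)) K)), (∀ p ∈ S, ∃ e, p.IsHomogeneous e) →
    ∀ (L : Type) [Field L] [Algebra ℂ L] (w : ℕ) (y : Fin (n + 1) → L), 1 ≤ w →
      GenericPoint S L w y → GeneralType ℂ L w →
      ∃ G : MvPolynomial (Fin (n + 1)) ℂ, IsForm G ∧ aeval y G ≠ 0 ∧
        OnPoints K (map (algebraMap K ℂ) '' S) G

/-- the diagonal form `∑ j, c j * y j ^ m` -/
noncomputable def diagonal {K : Type} [Field K] {N : ℕ} (m : ℕ) (c : Fin (N + 1) → K) :
    MvPolynomial (Fin (N + 1)) K := ∑ j, C (c j) * X j ^ m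

/-- no component of positive dimension of the Zariski closure of the set of `K`-rational points of
the projective variety `∑ j, c i j * y j ^ m = 0`, `i < k`, is of general type -/
def NoComponent (K : Subfield ℂ) (m : ℕ) {N k : ℕ} (c : Fin k → Fin (N + 1) → K) : Prop :=
  ∀ (L : Type) [Field L] [Algebra ℂ L] (w : ℕ) (y : Fin (N + 1) → L), 1 ≤ w →
    SubVar (fun i => map (algebraMap K ℂ) (diagonal m (c i))) L w y → GeneralType ℂ L w →
    ¬ Component (OnPoints K (Set.range fun i => map (algebraMap K ℂ) (diagonal m (c i)))) y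

section proof

open Pool.Agent.N254.SQ (Gen numk reduce t_comp t_idls t_dense t_null t_restr Eqs)
open Pool.Agent.W602.GT (coords val)
open Pool.Agent.H441.UA (FEmb vals exists_femb key pullφ pullφ_eval)

theorem sub_range {N k : ℕ} {f : Fin k → MvPolynomial (Fin (N + 1)) ℂ} {L : Type} [Field L]
    [Algebra ℂ L] {w : ℕ} {y : Fin (N + 1) → L} (h : SubVar f L w y) :
    SubVar (fun p : Set.range f => (p : MvPolynomial (Fin (N + 1)) ℂ)) L w y := by
  refine ⟨h.ne, ?_, h.gen, h.dim⟩
  rintro ⟨_, i, rfl⟩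
  exact h.mem i

theorem noComponent_of (K : Subfield ℂ) (hL : Lang K) (m : ℕ) {N k : ℕ}
    (c : Fin k → Fin (N + 1) → K) : NoComponent K m c := by
  intro L _ _ w y hw hy hGT hC
  obtain ⟨T, hTK, hTG⟩ := t_dense.points N K _ L w y (sub_range hy) hC
  obtain ⟨S', hS'h, hS'y, hS'all⟩ := numk K N L w y ⟨hy.ne, hy.gen, hy.dim⟩ T hTK
    (fun G hG => hTG G hG)
  have hgp : GenericPoint (S' : Set (MvPolynomial (Fin (N + 1)) K)) L w y := by
    refine ⟨⟨hy.ne, fun p => hS'y p p.2, hy.gen, hy.dim⟩, ?_⟩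
    intro G hG hyG x hx
    apply hS'all G hG hyG ℂ x
    intro p hp
    rw [aeval_map_algebraMap]
    exact hx p hp
  obtain ⟨G, hG, hyG, hGon⟩ := hL N S' hS'h L w y hw hgp hGT
  have h3 : OnPoints K (Eqs y) G := by
    intro x hx0 hxK hxE
    apply hGon x hx0 hxK
    rintro _ ⟨q, hq, rfl⟩
    obtain ⟨e, he⟩ := hS'h q hq
    exact hxE _ ⟨⟨e, he.map _⟩, hS'y q hq⟩
  obtain ⟨h1, H, hH, hyH, h2⟩ := hC
  have h4 := t_restr.points N K _ L y G H hG hH h2 h3
  obtain ⟨e, he⟩ := hG
  obtain ⟨e', he'⟩ := hH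
  have h5 := h1 (G * H) ⟨_, he.mul he'⟩ h4
  rw [map_mul] at h5
  rcases mul_eq_zero.1 h5 with h6 | h6
  · exact hyG h6
  · exact hyH h6

theorem lang_of (K : Subfield ℂ) (D : Set K) (hD1 : 1 ∈ D) (hD2 : ∀ x ∈ D, -x ∈ D)
    (hD3 : Submodule.span ℚ D = ⊤) {m : ℕ} (hm : 2 ≤ m)
    (h : ∀ (N k : ℕ) (c : Fin k → Fin (N + 1) → K), (∀ i j, c i j = 0 ∨ c i j ∈ D) →
      NoComponent K m c) : Lang K := by
  intro n S hS L _ _ w y hw hgp hGT
  obtain ⟨T, hT, hTS⟩ := reduce S
  obtain ⟨N, k, φ, c, I, J, hcD, hE⟩ := exists_femb D hD1 hD2 hD3 hm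
    (fun p : T => (p : MvPolynomial (Fin (n + 1)) K)) (fun e : Empty => e.elim)
    (fun e : Empty => e.elim) (fun p => hS p (hT p.2)) (fun e => e.elim) (fun e => e.elim)
  obtain ⟨P, hP, hPQ, hPy⟩ := key (σ := algebraMap K ℂ) t_comp (by omega) hE (y := y) hw
    ⟨hgp.sub.ne, hgp.sub.gen, hgp.sub.dim⟩ (fun P hP hyP Ω _ _ x hx => by
      have h1 := t_null n (Set.range fun p : S => map (algebraMap K ℂ)
        (p : MvPolynomial (Fin (n + 1)) K)) P (fun x hx => by
          apply hgp.all P hP hyP x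
          intro p hp
          have := hx _ ⟨⟨p, hp⟩, rfl⟩
          rw [eval_map] at this
          exact this) Ω x
      apply h1
      rintro _ ⟨p, rfl⟩
      have h2 := hTS Ω ((algebraMap ℂ Ω).comp (algebraMap K ℂ)) x (fun p hp => by
        have := hx ⟨p, hp⟩
        rw [eval_map]
        exact this) p p.2
      rw [eval_map] at h2
      rw [aeval_def, eval₂_map]
      exact h2) hGT
    (Q := OnPoints K (Set.range fun i => map (algebraMap K ℂ) (diagonal m (c i))))
    (t_idls.points N K _) (fun i x _ _ hx => hx _ ⟨i, rfl⟩)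
    (fun L' _ _ w' y' hw' hy' hGT' => h N k c hcD L' w' y' hw' hy' hGT')
  refine ⟨pullφ (algebraMap K ℂ) φ P, hE.pull_form _ hP, ?_, ?_⟩
  · rw [pullφ_eval]
    exact hPy
  · intro x hx0 hxK hxS
    have e1 : eval x (pullφ (algebraMap K ℂ) φ P) = aeval x (pullφ (algebraMap K ℂ) φ P) := by
      rw [← coe_aeval_eq_eval]
      rfl
    rw [e1, pullφ_eval]
    have h2 := hPQ (vals (algebraMap K ℂ) φ x) (hE.ne ℂ _ x hx0) (fun j => ?_) ?_
    · rw [← coe_aeval_eq_eval] at h2
      exact h2
    · -- the values are in `K`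
      have e2 : vals (algebraMap K ℂ) φ x j =
          algebraMap K ℂ (eval (fun i => (⟨x i, hxK i⟩ : K)) (φ j)) := by
        have h3 := eval₂_comp_left (algebraMap K ℂ) (RingHom.id K)
          (fun i => (⟨x i, hxK i⟩ : K)) (φ j)
        rw [RingHom.comp_id] at h3
        exact h3.symm
      rw [e2]
      exact (eval (fun i => (⟨x i, hxK i⟩ : K)) (φ j)).2
    · rintro _ ⟨i, rfl⟩
      rw [eval_map]
      refine (hE.pts ℂ _ x hx0).1 (fun p => ?_) i
      have := hxS _ ⟨p, hT p.2, rfl⟩
      rw [eval_map] at this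
      exact this

theorem part_one (m : ℕ) (hm : 2 ≤ m) (K : Subfield ℂ) (D : Set K) (hD1 : 1 ∈ D)
    (hD2 : ∀ x ∈ D, -x ∈ D) (hD3 : Submodule.span ℚ D = ⊤) (n : ℕ)
    (S : Set (MvPolynomial (Fin (n + 1)) K)) (hS : ∀ p ∈ S, ∃ e, p.IsHomogeneous e) :
      ∃ (N k : ℕ) (c : Fin k → Fin (N + 1) → K) (e : ℕ)
        (φ : Fin (N + 1) → MvPolynomial (Fin (n + 1)) K),
        (∀ i j, c i j = 0 ∨ c i j ∈ D) ∧ 1 ≤ e ∧ (∀ j, (φ j).IsHomogeneous e) ∧
        (∀ α : Fin (n + 1) → ℕ, ∑ i, α i = e → ∃ j, φ j = ∏ i, X i ^ α i) ∧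
        (∀ (Ω : Type) [Field Ω] (τ : K →+* Ω) (x : Fin (n + 1) → Ω), x ≠ 0 →
          ((∀ p ∈ S, eval₂ τ x p = 0) ↔
            ∀ i, eval₂ τ (fun j => eval₂ τ x (φ j)) (diagonal m (c i)) = 0)) ∧
        ∀ (L : Type) [Field L] [Algebra ℂ L] (w : ℕ) (y : Fin (N + 1) → L), 1 ≤ w →
          SubVar (fun i => map (algebraMap K ℂ) (diagonal m (c i))) L w y →
          GeneralType ℂ L w ∨ ∃ (ζ : Fin (N + 1) → ℂ) (x : Fin (n + 1) → L) (s : L),
            (∀ j, ζ j ^ m = 1) ∧ x ≠ 0 ∧ s ≠ 0 ∧
            (∀ p ∈ S, aeval x (map (algebraMap K ℂ) p) = 0) ∧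
            ∀ j, y j = s * (algebraMap ℂ L (ζ j) * aeval x (map (algebraMap K ℂ) (φ j))) := by
  obtain ⟨T, hT, hTS⟩ := reduce S
  obtain ⟨N, k, φ, c, I, J, hcD, hE⟩ := exists_femb D hD1 hD2 hD3 hm
    (fun p : T => (p : MvPolynomial (Fin (n + 1)) K)) (fun e : Empty => e.elim)
    (fun e : Empty => e.elim) (fun p => hS p (hT p.2)) (fun e => e.elim) (fun e => e.elim)
  have hTS' : ∀ (Ω : Type) [Field Ω] (τ : K →+* Ω) (x : Fin (n + 1) → Ω),
      (∀ p : T, eval₂ τ x (p : MvPolynomial (Fin (n + 1)) K) = 0) ↔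
        ∀ p ∈ S, eval₂ τ x p = 0 := by
    intro Ω _ τ x
    constructor
    · intro hx p hp
      have h2 := hTS Ω τ x (fun p hp => by
        rw [eval_map]
        exact hx ⟨p, hp⟩) p hp
      rwa [eval_map] at h2
    · exact fun hx p => hx p (hT p.2)
  obtain ⟨e, he, hφ, hmono⟩ := hE.mono
  refine ⟨N, k, c, e, φ, hcD, he, hφ, hmono, fun Ω _ τ x hx => ?_, fun L _ _ w y _ hy => ?_⟩
  · rw [← hTS']
    exact hE.pts Ω τ x hx
  · by_cases hg : GeneralType ℂ L w
    · exact Or.inl hg
    · right
      obtain ⟨ζ, x, s, hζ, hx, hs, hxF, hyx⟩ := hE.sub ℂ (algebraMap K ℂ) L w y hy.ne hy.gen hy.dim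
        hg (fun i => by
          have h1 := hy.mem i
          unfold val at h1
          rw [aeval_def, eval₂_map] at h1
          exact h1)
      refine ⟨ζ, x, s, hζ, hx, hs, fun p hp => ?_, fun j => ?_⟩
      · rw [aeval_def, eval₂_map]
        exact (hTS' L _ x).1 hxF p hp
      · rw [aeval_def, eval₂_map]
        exact hyx j

end proof

theorem result (m : ℕ) (hm : 2 ≤ m) (K : Subfield ℂ) (D : Set K) (hD1 : 1 ∈ D)
    (hD2 : ∀ x ∈ D, -x ∈ D) (hD3 : Submodule.span ℚ D = ⊤) :
    -- Theorem 1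
    (∀ (n : ℕ) (S : Set (MvPolynomial (Fin (n + 1)) K)), (∀ p ∈ S, ∃ e, p.IsHomogeneous e) →
      ∃ (N k : ℕ) (c : Fin k → Fin (N + 1) → K) (e : ℕ)
        (φ : Fin (N + 1) → MvPolynomial (Fin (n + 1)) K),
        (∀ i j, c i j = 0 ∨ c i j ∈ D) ∧ 1 ≤ e ∧ (∀ j, (φ j).IsHomogeneous e) ∧
        (∀ α : Fin (n + 1) → ℕ, ∑ i, α i = e → ∃ j, φ j = ∏ i, X i ^ α i) ∧
        (∀ (Ω : Type) [Field Ω] (τ : K →+* Ω) (x : Fin (n + 1) → Ω), x ≠ 0 →
          ((∀ p ∈ S, eval₂ τ x p = 0) ↔
            ∀ i, eval₂ τ (fun j => eval₂ τ x (φ j)) (diagonal m (c i)) = 0)) ∧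
        ∀ (L : Type) [Field L] [Algebra ℂ L] (w : ℕ) (y : Fin (N + 1) → L), 1 ≤ w →
          SubVar (fun i => map (algebraMap K ℂ) (diagonal m (c i))) L w y →
          GeneralType ℂ L w ∨ ∃ (ζ : Fin (N + 1) → ℂ) (x : Fin (n + 1) → L) (s : L),
            (∀ j, ζ j ^ m = 1) ∧ x ≠ 0 ∧ s ≠ 0 ∧
            (∀ p ∈ S, aeval x (map (algebraMap K ℂ) p) = 0) ∧
            ∀ j, y j = s * (algebraMap ℂ L (ζ j) * aeval x (map (algebraMap K ℂ) (φ j)))) ∧
    -- Theorem 2
    (Lang K ↔ ∀ (N k : ℕ) (c : Fin k → Fin (N + 1) → K), (∀ i j, c i j = 0 ∨ c i j ∈ D) →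
      NoComponent K m c) := by
  exact ⟨fun n S hS => part_one m hm K D hD1 hD2 hD3 n S hS,
    fun hL N k c _ => noComponent_of K hL m c, fun h => lang_of K D hD1 hD2 hD3 hm h⟩

end Pool.Agent.Results.MP_2ae8fe_ag.DiagonalSystemsSuffice
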