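import Pool.Agent.H912.AE.Red

/-!
# Rational points on the pull-backs of a projective variety under power maps

For a closed set `X ⊂ ℙ^n` over `ℚ`, given by an arbitrary set `S` of forms, let
`X_m = {x ∈ ℙ^n : (x_0^m : ... : x_n^m) ∈ X}`.  We prove a local-global principle for the
rational points of `X_m` for all `m` outside a set of natural density zero, with an exact
description of the density of `{m : X_m(ℚ) ≠ ∅}`.

Ankeny and Erdős (1954) treated the diagonal equations `Σ a_i x_i^m = 0`.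
-/

set_option autoImplicit false

open Filter Topology

namespace Pool.Agent.Results.MP_2ae8fe_ag.PowerPullbacks

/-- `x` is a vector of homogeneous coordinates of a `K`-point of `X_m`, where `X ⊂ ℙ^n` is the
set of common zeros of the forms in `S` and `X_m = {x : (x_0^m : ... : x_n^m) ∈ X}`. -/
def IsPt {n : ℕ} (S : Set (MvPolynomial (Fin (n + 1)) ℚ)) (m : ℕ) {K : Type} [Field K]
    [Algebra ℚ K] (x : Fin (n + 1) → K) : Prop :=
  x ≠ 0 ∧ ∀ F ∈ S, MvPolynomial.aeval (fun i => x i ^ m) F = 0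

/-- All coordinates of `ε` are in `{0, 1, -1}`. -/
def IsTrivial {n : ℕ} (ε : Fin (n + 1) → ℚ) : Prop :=
  ∀ i, ε i = 0 ∨ ε i = 1 ∨ ε i = -1

/-- The set `A` of positive integers has natural density `δ`. -/
def HasDensity (A : Set ℕ) (δ : ℝ) : Prop :=
  Tendsto (fun N : ℕ => ((A ∩ Set.Icc 1 N).ncard : ℝ) / N) atTop (𝓝 δ)

open Classical in
/-- `1` if `X` has a point with coordinates in `{0, 1}`, otherwise `1/2` if `X` has a point with
coordinates in `{0, 1, -1}`, otherwise `0`. -/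
noncomputable def dens {n : ℕ} (S : Set (MvPolynomial (Fin (n + 1)) ℚ)) : ℝ :=
  if ∃ ε : Fin (n + 1) → ℚ, (∀ i, ε i = 0 ∨ ε i = 1) ∧ IsPt S 1 ε then 1
  else if ∃ ε : Fin (n + 1) → ℚ, IsTrivial ε ∧ IsPt S 1 ε then 1 / 2
  else 0

open Classical in
lemma full_of {A : Set ℕ} (h : ∀ ε : ℝ, 0 < ε → ∃ N₀ : ℕ, ∀ M : ℕ, N₀ ≤ M →
    (((Finset.range M).filter (fun m => m ∉ A)).card : ℝ) ≤ ε * M) : HasDensity A 1 := by
  unfold HasDensity
  rw [Metric.tendsto_atTop]
  intro ε hε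
  obtain ⟨N₀, hN₀⟩ := h (ε / 4) (by positivity)
  refine ⟨max 1 N₀, fun N hN => ?_⟩
  have hN1 : 1 ≤ N := (le_max_left _ _).trans hN
  have hNr : (1 : ℝ) ≤ N := by exact_mod_cast hN1
  have hN0 : N₀ ≤ N := (le_max_right _ _).trans hN
  have h1 := hN₀ (N + 1) (by omega)
  have h2 : (A ∩ Set.Icc 1 N).ncard = ((Finset.Icc 1 N).filter (fun m => m ∈ A)).card := by
    rw [← Set.ncard_coe_finset]
    congr 1
    ext m
    simp only [Set.mem_inter_iff, Set.mem_Icc, Finset.coe_filter, Finset.mem_Icc,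
      Set.mem_ofPred_eq]
    exact and_comm
  have h3 := Finset.card_filter_add_card_filter_not (s := Finset.Icc 1 N) (fun m => m ∈ A)
  rw [Nat.card_Icc, Nat.add_sub_cancel] at h3
  have h4 : ((Finset.Icc 1 N).filter (fun m => m ∉ A)).card ≤
      ((Finset.range (N + 1)).filter (fun m => m ∉ A)).card := by
    refine Finset.card_le_card (Finset.filter_subset_filter _ fun m hm => ?_)
    rw [Finset.mem_Icc] at hm
    rw [Finset.mem_range]
    omega
  have h5 : (((Finset.Icc 1 N).filter (fun m => m ∉ A)).card : ℝ) ≤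
      ((Finset.range (N + 1)).filter (fun m => m ∉ A)).card := by exact_mod_cast h4
  have h6 : (((Finset.Icc 1 N).filter (fun m => m ∈ A)).card : ℝ) +
      ((Finset.Icc 1 N).filter (fun m => m ∉ A)).card = N := by exact_mod_cast h3
  rw [h2, Real.dist_eq, abs_lt]
  have h7 : (((Finset.Icc 1 N).filter (fun m => m ∈ A)).card : ℝ) / N - 1 =
      -(((Finset.Icc 1 N).filter (fun m => m ∉ A)).card / N) := by
    have : (N : ℝ) ≠ 0 := by linarith
    field_simp
    linarith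
  have h8 : (((Finset.Icc 1 N).filter (fun m => m ∉ A)).card : ℝ) / N ≤ ε / 2 := by
    rw [div_le_iff₀ (by linarith)]
    push_cast at h1
    nlinarith
  have h9 : 0 ≤ (((Finset.Icc 1 N).filter (fun m => m ∉ A)).card : ℝ) / N := by positivity
  rw [h7]
  constructor
  · linarith
  · linarith

/-- two sets agreeing on a set of density one have the same density -/
lemma density_congr {W E O : Set ℕ} {δ : ℝ} (hW : HasDensity W 1) (hO : HasDensity O δ)
    (h : ∀ m ∈ W, 1 ≤ m → (m ∈ E ↔ m ∈ O)) : HasDensity E δ := by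
  have hW' : Tendsto (fun N : ℕ => 1 - ((W ∩ Set.Icc 1 N).ncard : ℝ) / N) atTop (𝓝 0) := by
    have := hW.const_sub 1
    simpa using this
  have key : Tendsto (fun N : ℕ => ((E ∩ Set.Icc 1 N).ncard : ℝ) / N -
      ((O ∩ Set.Icc 1 N).ncard : ℝ) / N) atTop (𝓝 0) := by
    refine squeeze_zero_norm' ?_ hW'
    filter_upwards [eventually_ge_atTop 1] with N hN
    have hfin : (Set.Icc 1 N).Finite := Set.finite_Icc 1 N
    have hc : (Set.Icc 1 N).ncard = N := by
      rw [Set.ncard_eq_toFinset_card', Set.toFinset_Icc, Nat.card_Icc, Nat.add_sub_cancel]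
    have hWc : (W ∩ Set.Icc 1 N).ncard + (Set.Icc 1 N \ W).ncard = N := by
      rw [Set.inter_comm, Set.ncard_inter_add_ncard_sdiff_eq_ncard _ _ hfin, hc]
    have aux : ∀ A B : Set ℕ, (∀ m ∈ W, 1 ≤ m → (m ∈ A ↔ m ∈ B)) →
        (A ∩ Set.Icc 1 N).ncard ≤ (B ∩ Set.Icc 1 N).ncard + (Set.Icc 1 N \ W).ncard := by
      intro A B hAB
      have h1 : A ∩ Set.Icc 1 N ⊆ (B ∩ Set.Icc 1 N) ∪ (Set.Icc 1 N \ W) := by
        rintro m ⟨hm1, hm2⟩
        by_cases hm : m ∈ W
        · exact Or.inl ⟨(hAB m hm hm2.1).1 hm1, hm2⟩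
        · exact Or.inr ⟨hm2, hm⟩
      refine (Set.ncard_le_ncard h1 ?_).trans (Set.ncard_union_le _ _)
      exact (hfin.inter_of_right B).union hfin.sdiff
    have h1 := aux E O h
    have h2 := aux O E fun m hm hm1 => (h m hm hm1).symm
    have hN0 : (0 : ℝ) < N := by exact_mod_cast hN
    have hWc' : ((W ∩ Set.Icc 1 N).ncard : ℝ) + (Set.Icc 1 N \ W).ncard = N := by
      exact_mod_cast hWc
    have h1' : ((E ∩ Set.Icc 1 N).ncard : ℝ) ≤
      (O ∩ Set.Icc 1 N).ncard + (Set.Icc 1 N \ W).ncard := by exact_mod_cast h1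
    have h2' : ((O ∩ Set.Icc 1 N).ncard : ℝ) ≤
      (E ∩ Set.Icc 1 N).ncard + (Set.Icc 1 N \ W).ncard := by exact_mod_cast h2
    have h3 : 1 - ((W ∩ Set.Icc 1 N).ncard : ℝ) / N = (Set.Icc 1 N \ W).ncard / N := by
      field_simp
      linarith
    rw [h3, Real.norm_eq_abs, ← sub_div, abs_div, abs_of_pos hN0]
    apply div_le_div_of_nonneg_right _ hN0.le
    rw [abs_le]
    constructor <;> linarith
  have := key.add hO
  unfold HasDensity
  simpa using this

lemma density_univ : HasDensity Set.univ 1 := by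
  unfold HasDensity
  refine Tendsto.congr' ?_ tendsto_const_nhds
  filter_upwards [eventually_ge_atTop 1] with N hN
  rw [Set.univ_inter, Set.ncard_eq_toFinset_card', Set.toFinset_Icc, Nat.card_Icc,
    Nat.add_sub_cancel, div_self]
  have : N ≠ 0 := by omega
  exact_mod_cast this

lemma density_empty : HasDensity ∅ 0 := by
  unfold HasDensity
  simp

lemma card_odd (N : ℕ) : ({m | Odd m} ∩ Set.Icc 1 N).ncard = (N + 1) / 2 := by
  have h1 : {m | Odd m} ∩ Set.Icc 1 N =
      (((Finset.range ((N + 1) / 2)).image (fun a => 2 * a + 1) : Finset ℕ) : Set ℕ) := by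
    ext m
    simp only [Set.mem_inter_iff, Set.mem_ofPred_eq, Set.mem_Icc, Finset.coe_image, Set.mem_image,
      Finset.mem_coe, Finset.mem_range]
    constructor
    · rintro ⟨⟨a, rfl⟩, h2⟩
      exact ⟨a, by omega, rfl⟩
    · rintro ⟨a, ha, rfl⟩
      exact ⟨⟨a, rfl⟩, by omega⟩
  rw [h1, Set.ncard_coe_finset, Finset.card_image_of_injective _ (fun a b h => by
    have h' : 2 * a + 1 = 2 * b + 1 := h
    omega), Finset.card_range]

lemma density_odd : HasDensity {m | Odd m} (1 / 2) := by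
  unfold HasDensity
  simp only [card_odd]
  have h1 : Tendsto (fun N : ℕ => (1 : ℝ) / N) atTop (𝓝 0) := tendsto_one_div_atTop_nhds_zero_nat
  have h2 : Tendsto (fun N : ℕ => 1 / 2 + (1 : ℝ) / N) atTop (𝓝 (1 / 2)) := by
    have := h1.const_add (1 / 2)
    simpa using this
  refine tendsto_of_tendsto_of_tendsto_of_le_of_le' tendsto_const_nhds h2 ?_ ?_
  · filter_upwards [eventually_ge_atTop 1] with N hN
    have hN0 : (0 : ℝ) < N := by exact_mod_cast hN
    rw [le_div_iff₀ hN0]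
    have : N ≤ 2 * ((N + 1) / 2) := by omega
    have h3 : (N : ℝ) ≤ 2 * (((N + 1) / 2 : ℕ) : ℝ) := by exact_mod_cast this
    linarith
  · filter_upwards [eventually_ge_atTop 1] with N hN
    have hN0 : (0 : ℝ) < N := by exact_mod_cast hN
    rw [div_le_iff₀ hN0]
    have : 2 * ((N + 1) / 2) ≤ N + 1 := by omega
    have h3 : 2 * (((N + 1) / 2 : ℕ) : ℝ) ≤ N + 1 := by exact_mod_cast this
    have h4 : (1 / 2 + (1 : ℝ) / N) * N = N / 2 + 1 := by
      field_simp
    rw [h4]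
    linarith

lemma trivial_pow {n : ℕ} {ε : Fin (n + 1) → ℚ} {m : ℕ} (hm : m ≠ 0) (h : IsTrivial ε)
    (hε : Odd m ∨ ∀ i, ε i = 0 ∨ ε i = 1) (i : Fin (n + 1)) : ε i ^ m = ε i := by
  rcases h i with h1 | h1 | h1
  · rw [h1, zero_pow hm]
  · rw [h1, one_pow]
  · rcases hε with h2 | h2
    · rw [h1, h2.neg_one_pow]
    · rcases h2 i with h3 | h3
      · rw [h3, zero_pow hm]
      · rw [h3, one_pow]

/-- **Main theorem.** Let `X ⊂ ℙ^n` be the set of zeros of an arbitrary set `S` of forms with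
rational coefficients, and let `X_m` be the pull-back of `X` under `x ↦ x^m`.

1. For every `r` and all `m` outside a set of density zero, there are `r` primes `q` such that for
   every `x ∈ X_m(ℚ_q)` there is a point `ε ∈ X_m(ℚ)` with coordinates in `{0, 1, -1}` whose
   nonzero coordinates are at the places of the coordinates of `x` of maximal absolute value.
2. For all `m` outside a set of density zero, `X_m` has a rational point as soon as it has a point
   over every `ℚ_q`; and then it has one with coordinates in `{0, 1, -1}`.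
3. The set of `m` with `X_m(ℚ) ≠ ∅` has a natural density, equal to `1` if `X` has a point with
   coordinates in `{0, 1}`, equal to `1/2` if it has a point with coordinates in `{0, 1, -1}` but
   none with coordinates in `{0, 1}`, and equal to `0` otherwise. -/
theorem result {n : ℕ} (S : Set (MvPolynomial (Fin (n + 1)) ℚ))
    (hS : ∀ F ∈ S, ∃ D, F.IsHomogeneous D) :
    (∀ r : ℕ, HasDensity {m | ∃ Q : Finset ℕ, Q.card = r ∧ ∀ q ∈ Q, ∃ _ : Fact q.Prime,
      ∀ x : Fin (n + 1) → ℚ_[q], IsPt S m x →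
        ∃ ε : Fin (n + 1) → ℚ, IsTrivial ε ∧ IsPt S m ε ∧
          ∀ i, (ε i ≠ 0 ↔ ∀ j, ‖x j‖ ≤ ‖x i‖)} 1) ∧
    HasDensity {m | (∀ (q : ℕ) [Fact q.Prime], ∃ x : Fin (n + 1) → ℚ_[q], IsPt S m x) →
      ∃ ε : Fin (n + 1) → ℚ, IsTrivial ε ∧ IsPt S m ε} 1 ∧
    HasDensity {m | ∃ x : Fin (n + 1) → ℚ, IsPt S m x} (dens S) := by
  classical
  obtain ⟨S', hS', hred⟩ := Pool.Agent.H912.AE.reduce S hS
  -- the set of good exponents
  set W : ℕ → Set ℕ := fun r => {m | ∃ Q : Finset ℕ, Q.card = r ∧ ∀ q ∈ Q,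
    Pool.Agent.H912.AE.Wit S' m q} with hW
  have hWd : ∀ r, HasDensity (W r) 1 := by
    intro r
    refine full_of fun ε hε => ?_
    obtain ⟨N₀, h⟩ := Pool.Agent.H912.AE.witnesses S' hS' r 0 hε
    refine ⟨N₀, fun M hM => le_trans ?_ (h M hM)⟩
    have h1 : (Finset.range M).filter (fun m => m ∉ W r) ⊆ (Finset.range M).filter (fun m =>
        ¬ ∃ Q : Finset ℕ, Q.card = r ∧ ∀ q ∈ Q, 0 < q ∧ Pool.Agent.H912.AE.Wit S' m q) := by
      intro m hm
      rw [Finset.mem_filter] at hm ⊢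
      refine ⟨hm.1, ?_⟩
      rintro ⟨Q, hQ, hQ'⟩
      exact hm.2 ⟨Q, hQ, fun q hq => (hQ' q hq).2⟩
    exact_mod_cast Finset.card_le_card h1
  -- the property of a witness
  have hwit : ∀ m q : ℕ, 1 ≤ m → Pool.Agent.H912.AE.Wit S' m q → ∃ _ : Fact q.Prime,
      ∀ x : Fin (n + 1) → ℚ_[q], IsPt S m x →
        ∃ ε : Fin (n + 1) → ℚ, IsTrivial ε ∧ (Odd m ∨ ∀ i, ε i = 0 ∨ ε i = 1) ∧ IsPt S 1 ε ∧
          ∀ i, (ε i ≠ 0 ↔ ∀ j, ‖x j‖ ≤ ‖x i‖) := by
    rintro m q hm ⟨hq, h⟩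
    refine ⟨hq, fun x hx => ?_⟩
    obtain ⟨ε, h1, h2, h3, h4⟩ := h x hx.1 ((hred ℚ_[q] _).2 hx.2)
    rw [Pool.Agent.H912.AE.mem_Eps] at h1
    refine ⟨fun i => (ε i : ℚ), fun i => ?_, ?_, ⟨?_, ?_⟩, fun i => ?_⟩
    · rcases h1 i with h | h | h <;> simp [h]
    · rcases Nat.even_or_odd m with he | ho
      · right
        intro i
        have h5 := h3 he i
        rcases h1 i with h | h | h
        · rw [h] at h5
          norm_num at h5
        · left
          change ((ε i : ℤ) : ℚ) = 0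
          exact_mod_cast h
        · right
          change ((ε i : ℤ) : ℚ) = 1
          exact_mod_cast h
      · exact Or.inl ho
    · intro h5
      obtain ⟨i, hi⟩ := Finite.exists_max (fun i => ‖x i‖)
      have h6 := (h2 i).2 hi
      have h7 := congrFun h5 i
      simp only [Pi.zero_apply] at h7
      exact h6 (by exact_mod_cast h7)
    · refine (hred ℚ _).1 fun F hF => ?_
      have h5 := h4 F hF
      have h6 := Pool.Agent.H912.AE.aeval_ringHom (Int.castRingHom ℚ) ε F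
      simp only [pow_one]
      have h7 : MvPolynomial.aeval ε F = MvPolynomial.eval ε F := rfl
      rw [h7, h5, map_zero] at h6
      exact h6.symm
    · rw [← h2 i]
      change ((ε i : ℤ) : ℚ) ≠ 0 ↔ ε i ≠ 0
      simp
  have hpt : ∀ (m : ℕ) (ε : Fin (n + 1) → ℚ), 1 ≤ m → IsTrivial ε →
      (Odd m ∨ ∀ i, ε i = 0 ∨ ε i = 1) → IsPt S 1 ε → IsPt S m ε := by
    intro m ε hm h1 h2 h3
    refine ⟨h3.1, ?_⟩
    have h4 : (fun i => ε i ^ m) = fun i => ε i ^ 1 := by
      funext i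
      rw [trivial_pow (by omega) h1 h2 i, pow_one]
    rw [h4]
    exact h3.2
  have hloc : ∀ (m q : ℕ) [Fact q.Prime] (x : Fin (n + 1) → ℚ), IsPt S m x →
      IsPt S m (fun i => (x i : ℚ_[q])) := by
    intro m q _ x hx
    refine ⟨fun h => hx.1 ?_, fun F hF => ?_⟩
    · funext i
      have := congrFun h i
      simp only [Pi.zero_apply] at this
      exact_mod_cast this
    · have h1 := congrArg (algebraMap ℚ ℚ_[q]) (hx.2 F hF)
      rw [map_zero, ← MvPolynomial.aeval_algebraMap_apply] at h1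
      have h2 : (⇑(algebraMap ℚ ℚ_[q]) ∘ fun i => x i ^ m) = fun i => (x i : ℚ_[q]) ^ m := by
        funext i
        simp
      rw [← h2]
      exact h1
  refine ⟨fun r => ?_, ?_, ?_⟩
  · refine density_congr (hWd r) density_univ fun m hm hm1 => ⟨fun _ => Set.mem_univ _, fun _ => ?_⟩
    obtain ⟨Q, hQ, hQ'⟩ := hm
    refine ⟨Q, hQ, fun q hq => ?_⟩
    obtain ⟨h1, h2⟩ := hwit m q hm1 (hQ' q hq)
    refine ⟨h1, fun x hx => ?_⟩
    obtain ⟨ε, h3, h4, h5, h6⟩ := h2 x hx
    exact ⟨ε, h3, hpt m ε hm1 h3 h4 h5, h6⟩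
  · refine density_congr (hWd 1) density_univ fun m hm hm1 => ⟨fun _ => Set.mem_univ _, fun _ => ?_⟩
    intro hall
    obtain ⟨Q, hQ, hQ'⟩ := hm
    obtain ⟨q, hq⟩ := Finset.card_eq_one.1 hQ
    obtain ⟨h1, h2⟩ := hwit m q hm1 (hQ' q (by rw [hq]; exact Finset.mem_singleton_self q))
    obtain ⟨x, hx⟩ := hall q
    obtain ⟨ε, h3, h4, h5, -⟩ := h2 x hx
    exact ⟨ε, h3, hpt m ε hm1 h3 h4 h5⟩
  · have hW1 : ∀ m ∈ W 1, 1 ≤ m → (∃ x : Fin (n + 1) → ℚ, IsPt S m x) →
        ∃ ε : Fin (n + 1) → ℚ, IsTrivial ε ∧ (Odd m ∨ ∀ i, ε i = 0 ∨ ε i = 1) ∧ IsPt S 1 ε := by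
      rintro m ⟨Q, hQ, hQ'⟩ hm1 ⟨x, hx⟩
      obtain ⟨q, hq⟩ := Finset.card_eq_one.1 hQ
      obtain ⟨h1, h2⟩ := hwit m q hm1 (hQ' q (by rw [hq]; exact Finset.mem_singleton_self q))
      obtain ⟨ε, h3, h4, h5, -⟩ := h2 _ (hloc m q x hx)
      exact ⟨ε, h3, h4, h5⟩
    unfold dens
    split_ifs with hA hB
    · obtain ⟨ε, h1, h2⟩ := hA
      refine density_congr (hWd 1) density_univ fun m _ hm1 =>
        ⟨fun _ => Set.mem_univ _, fun _ => ?_⟩
      exact ⟨ε, hpt m ε hm1 (fun i => (h1 i).imp id Or.inl) (Or.inr h1) h2⟩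
    · obtain ⟨ε, h1, h2⟩ := hB
      refine density_congr (hWd 1) density_odd fun m hm hm1 => ⟨fun h => ?_, fun h => ?_⟩
      · obtain ⟨ε', h3, h4, h5⟩ := hW1 m hm hm1 h
        rcases h4 with h4 | h4
        · exact h4
        · exact absurd ⟨ε', h4, h5⟩ hA
      · exact ⟨ε, hpt m ε hm1 h1 (Or.inl h) h2⟩
    · refine density_congr (hWd 1) density_empty fun m hm hm1 => ⟨fun h => ?_, fun h => ?_⟩
      · obtain ⟨ε', h3, h4, h5⟩ := hW1 m hm hm1 h
        exact absurd ⟨ε', h3, h5⟩ hB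
      · exact absurd h (Set.notMem_empty m)

end Pool.Agent.Results.MP_2ae8fe_ag.PowerPullbacks
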