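import Pool.Graph.R_pool_sql_team_seeded_63374d34.N254.SQ.DenseR
import Pool.Graph.R_pool_sql_team_seeded_63374d34.N254.SQ.RestrR
import Pool.Agent.H911.KD.Q

/-!
# Lang's conjecture for varieties of dimension `m` over the rational numbers follows from hypersurfaces
# of dimension `m + 1` over the rational numbers with a singular locus of codimension at least 3, and
# from smooth hypersurfaces of dimension `2 m`

Let `K` be the field of rational numbers, or any number field in `ℂ` (or any algebraic extension of
`ℚ` in `ℂ`). Lang's conjecture over `K` says that the `K`-rational points of a variety of general type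
over `K` are not Zariski dense.

Let `0 ≤ k ≤ m` and `N = 2 m + 1 - k`. We consider hypersurfaces `Y` of dimension `N - 1 = 2 m - k` in
`P^N` over the field `ℚ` whose singular locus is of dimension less than `k`. For `k = 0` these are the
smooth hypersurfaces of dimension `2 m`; for `k = m - 1` the hypersurfaces of dimension `m + 1` whose
singular locus is of dimension at most `m - 2` (for `m = 2`: threefolds in `P^4` with isolated
singularities). In general the codimension of the singular locus in `Y` is at least `2 (m - k) + 1`;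
for `k < m` such hypersurfaces are geometrically irreducible and normal.

For all `k ≤ m` there are bounds `D₁(e)`, independent of `K`, such that for every choice of one exponent
`δ(e) ≥ D₁(e)` for each `e` we have the implications (1) ⟹ (2) ⟹ (3) ⟹ (4) between the following statements.

(1) Lang's conjecture over `K` for all varieties of dimension at most `2 m - k`.
(2) For all hypersurfaces `Y` of dimension `2 m - k` over `ℚ` with a singular locus of dimension less
than `k` no component of positive dimension of the Zariski closure of `Y(K)` is of general type.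
(3) The same for the hypersurfaces `∑ t, Q_t(y) (y_0 + t y_1 + ⋯ + t^N y_N)^D = 0` with `N (2 N + 1)`
rational forms `Q_t` of the same degree `e` and `D = δ(e)`: for each degree `e` only one linear system
of hypersurfaces, of degree `e + δ(e)`.
(4) Lang's conjecture over `K` for all varieties of dimension at most `m`.

So for all `m` together the four statements are equivalent, with the loss of only one dimension
(`k = m - 1`): for instance the conjecture for all surfaces over `ℚ` follows from threefolds in `P^4`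
over `ℚ` with isolated singularities (and also from smooth hypersurfaces in `P^5` over `ℚ`).

Proof. Let `X` be a variety of general type of dimension `w ≤ m` over `K`. A linear projection
with rational coefficients maps it birationally to a closed subset of an irreducible hypersurface
`F = 0` over `ℚ` in the projective space of dimension `w + 1`, a linear subspace `Λ` of `P^N`. At the
points of `{F = 0} ⊆ Λ` the rank of the Jacobian matrix of the ideal of `{F = 0} ⊆ Λ` plus `k` is
larger than the dimension of the point, also at the singular points of `F = 0`. A count of parameters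
(for general coefficients of the forms `Q_t` in this ideal and of `k` linear forms) shows that for large
`D` the singular locus of the general hypersurface `Y` of this form does not meet a linear subspace of
codimension `k`. Every closed subvariety of `Y` of positive dimension is of general type or contained in
`{F = 0} ⊆ Λ` (by the methods of the library modules `N254.SQ`). If `X(K)` is dense, then the model `X'`
of `X` is contained in a component `W` of the closure of `Y(K)`. By (3), `W` is not of general type, so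
it is contained in the hypersurface `F = 0` of `Λ` of dimension `w`, so `W = X'` is of general type, a
contradiction.
-/

set_option autoImplicit false

namespace Pool.Agent.Results.MP_2ae8fe_ag.SmallSingularLocus

open MvPolynomial
open Pool.Agent.W602.GT (SubVar GeneralType)
open Pool.Agent.N254.SQ (IsForm Component OnPoints GenericPoint powerFormOver)

/-- Lang's conjecture for all geometrically irreducible projective varieties of dimension `1, …, m`
over `K`: if `V(S)` is of general type, then some form which does not vanish at the generic point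
vanishes at all `K`-rational points. -/
def Lang (m : ℕ) (K : Subfield ℂ) : Prop :=
  ∀ (n : ℕ) (S : Set (MvPolynomial (Fin (n + 1)) K)), (∀ p ∈ S, ∃ e, p.IsHomogeneous e) →
    ∀ (L : Type) [Field L] [Algebra ℂ L] (w : ℕ) (y : Fin (n + 1) → L), 1 ≤ w → w ≤ m →
      GenericPoint S L w y → GeneralType ℂ L w →
      ∃ G : MvPolynomial (Fin (n + 1)) ℂ, IsForm G ∧ aeval y G ≠ 0 ∧
        OnPoints K (map (algebraMap K ℂ) '' S) G

/-- no component of positive dimension of the Zariski closure of the set of `K`-rational points of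
the hypersurface `A = 0` over `ℚ` is of general type -/
def NoComponent (K : Subfield ℂ) {N : ℕ} (A : MvPolynomial (Fin (N + 1)) ℚ) : Prop :=
  ∀ (L : Type) [Field L] [Algebra ℂ L] (w : ℕ) (y : Fin (N + 1) → L), 1 ≤ w →
    SubVar (fun _ : Unit => map (algebraMap ℚ ℂ) A) L w y → GeneralType ℂ L w →
    ¬ Component (OnPoints K {map (algebraMap ℚ ℂ) A}) y

/-- The singular locus of the hypersurface `A = 0` over `ℚ` is of dimension less than `k`: some `k`
linear forms with rational coefficients have no common zero on it (over any field). For `k = 0` the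
hypersurface is smooth. -/
def SmallSing {N : ℕ} (k : ℕ) (A : MvPolynomial (Fin (N + 1)) ℚ) : Prop :=
  ∃ l : Fin k → Fin (N + 1) → ℚ, ∀ (Ω : Type) [Field Ω] (τ : ℚ →+* Ω) (x : Fin (N + 1) → Ω),
    x ≠ 0 → (∀ i, ∑ j, τ (l i j) * x j = 0) → ∃ j, eval₂ τ x (pderiv j A) ≠ 0

section proof

open Pool.Agent.N254.SQ (t_restr t_dense t_idls numk Eqs comp_trdeg aeval_zero_of)
open Pool.Agent.W602.GT (coords)
open Pool.Agent.H911.QD
open Pool.Agent.H911.KD (over_ne)

/-- the dimension of a subvariety of a hypersurface -/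
theorem dim_lt {N : ℕ} {A : MvPolynomial (Fin (N + 1)) ℂ} (hA : IsForm A) (hA0 : A ≠ 0)
    {L : Type} [Field L] [Algebra ℂ L] {w : ℕ} {y : Fin (N + 1) → L}
    (hy : SubVar (fun _ : Unit => A) L w y) : w < N := by
  obtain ⟨a, ha⟩ : ∃ a, y a ≠ 0 := by
    by_contra hcon
    push Not at hcon
    exact hy.ne (funext hcon)
  obtain ⟨e, he⟩ := hA
  obtain ⟨u, hu⟩ : ∃ u : Fin (N + 1) → L, u = fun j => y j / y a := ⟨_, rfl⟩
  have hu' : u = (y a)⁻¹ • y := by
    rw [hu]
    funext j
    rw [Pi.smul_apply, smul_eq_mul, div_eq_inv_mul]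
  have hua : u a = 1 := by
    rw [hu]
    exact div_self ha
  have huA : aeval u A = 0 := by
    rw [hu', aeval_zero_of ⟨e, he⟩ (inv_ne_zero ha)]
    exact hy.mem ()
  have h1 : Algebra.trdeg ℂ (Algebra.adjoin ℂ (Set.range u)) = (w : Cardinal) := by
    rw [← comp_trdeg, hu, ← coords_affine _ a ha, hy.gen]
    rw [(IntermediateField.topEquiv (F := ℂ) (E := L)).trdeg_eq, hy.dim]
  have h2 := cone_trdeg (K := ℂ) u a hua
  rw [h1] at h2
  -- the coordinate ring of the cone
  obtain ⟨v, hv⟩ : ∃ v : Fin (N + 1) → Polynomial L, v = fun j =>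
    (Polynomial.C (u j) * Polynomial.X : Polynomial L) := ⟨_, rfl⟩
  rw [← hv] at h2
  have hsur : Function.Surjective (aeval (Pool.Agent.H911.QR.hatc ℂ v) :
      MvPolynomial (Fin (N + 1)) ℂ →ₐ[ℂ] Algebra.adjoin ℂ (Set.range v)) := by
    rw [← AlgHom.range_eq_top, ← Algebra.adjoin_range_eq_range_aeval,
      Pool.Agent.H911.QR.hatc_adjoin]
  by_contra hcon
  have h3 := surj_inj _ hsur (by rw [trdeg_pol]; exact Cardinal.natCast_lt_aleph0) (by
    rw [trdeg_pol]
    refine le_trans ?_ h2
    have : N + 1 ≤ w + 1 := by omega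
    exact_mod_cast this)
  apply hA0
  apply h3
  rw [map_zero]
  apply Subtype.ext
  rw [Pool.Agent.H911.QR.hatc_aeval, hv, cone_eval u he, huA, map_zero, zero_mul]
  rfl

theorem forward {m N k : ℕ} (K : Subfield ℂ) (hN : N ≤ m + 1) (hk : k ≤ N) (h : Lang m K)
    (A : MvPolynomial (Fin (N + 1)) ℚ) (hAh : ∃ e, A.IsHomogeneous e) (hA : SmallSing k A) :
    NoComponent K A := by
  intro L _ _ w y hw hy hgt hcomp
  have hA0 : map (algebraMap ℚ ℂ) A ≠ 0 := by
    intro h0
    exact over_ne hk hA (map_injective _ (algebraMap ℚ ℂ).injective (by rw [h0, map_zero]))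
  have hwm : w ≤ m := by
    obtain ⟨e, he⟩ := hAh
    have := dim_lt ⟨e, he.map _⟩ hA0 hy
    omega
  have hy' : SubVar (fun p : ({map (algebraMap ℚ ℂ) A} : Set _) =>
      (p : MvPolynomial (Fin (N + 1)) ℂ)) L w y := by
    refine ⟨hy.ne, fun p => ?_, hy.gen, hy.dim⟩
    obtain ⟨p, hp⟩ := p
    rw [Set.mem_singleton_iff] at hp
    subst hp
    exact hy.mem ()
  obtain ⟨T, hT1, hT2⟩ := t_dense.points N K _ L w y hy' hcomp
  obtain ⟨h1, H, hH, hyH, h2⟩ := hcomp
  obtain ⟨S', hS1, hS2, hS3⟩ := numk K N L w y ⟨hy.ne, hy.gen, hy.dim⟩ T hT1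
    (fun G hG => hT2 G hG)
  obtain ⟨G, hG, hyG, hfin⟩ := h N (S' : Set _) hS1 L w y hw hwm
    ⟨⟨hy.ne, fun p => hS2 p p.2, hy.gen, hy.dim⟩, fun G hG hyG x hx => by
      have h3 := hS3 G hG hyG ℂ x (fun p hp => by
        rw [aeval_map_algebraMap]
        exact hx p hp)
      exact h3⟩ hgt
  have h3 : OnPoints K (Eqs y) G := by
    intro x hx0 hxK hxE
    apply hfin x hx0 hxK
    rintro _ ⟨q, hq, rfl⟩
    obtain ⟨e, he⟩ := hS1 q hq
    exact hxE _ ⟨⟨e, he.map _⟩, hS2 q hq⟩
  have h4 := t_restr.points N K _ L y G H hG hH h2 h3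
  obtain ⟨e, he⟩ := hG
  obtain ⟨e', he'⟩ := hH
  have h5 := h1 (G * H) ⟨e + e', he.mul he'⟩ h4
  rw [map_mul] at h5
  rcases mul_eq_zero.1 h5 with h6 | h6
  · exact hyG h6
  · exact hyH h6

theorem backward {m N r : ℕ} {D₁ : ℕ → ℕ} (hmN : m + 1 ≤ N) (hN : 2 * (m + 1) ≤ N + 1 + r)
    (H : ∀ e D, D₁ e ≤ D → ∀ (n : ℕ) (h : n ≤ N),
      2 * n ≤ N + 1 + r → 1 ≤ e → ∀ F : MvPolynomial (Fin (n + 1)) ℚ, F.IsHomogeneous e → Prime F →
      ∃ Q : Fin (N * (2 * N + 1)) → MvPolynomial (Fin (N + 1)) ℚ,
        (∀ t, (Q t).IsHomogeneous e) ∧ SmallSing r (powerFormOver D Q) ∧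
        Prop1 h F (map (algebraMap ℚ ℂ) (powerFormOver D Q)))
    (K : Subfield ℂ) (hK : ∀ a ∈ K, IsAlgebraic ℚ a)
    {δ : ℕ → ℕ} (hδ : ∀ e, D₁ e ≤ δ e)
    (h : ∀ (e : ℕ) (Q : Fin (N * (2 * N + 1)) → MvPolynomial (Fin (N + 1)) ℚ),
        (∀ t, (Q t).IsHomogeneous e) → SmallSing r (powerFormOver (δ e) Q) →
        NoComponent K (powerFormOver (δ e) Q)) : Lang m K := by
  classical
  intro n S hS L _ _ w y hw hwm hgp hgt
  have hk : ∀ a : K, IsAlgebraic ℚ (algebraMap K ℂ a) := fun a => hK a a.2
  obtain ⟨lam, b, e, F, he, hF, hprime, hb, hp0, hcoords, hFy⟩ := exists_model hk S hS y hgp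
  have hwN : w + 1 ≤ N := by omega
  obtain ⟨Q, hQ, hsm, hprop⟩ := H e (δ e) (hδ e) (w + 1) hwN (by omega) he F hF hprime
  obtain ⟨G, hG, hGA, hyG⟩ := key_ideal S y hw hgp hgt lam b hb hp0 hcoords hwN F hF hprime hFy
    _ hprop (OnPoints K {map (algebraMap ℚ ℂ) (powerFormOver (δ e) Q)}) (t_idls.points N K _)
    (fun x _ _ hx => hx _ rfl) (h e Q hQ hsm)
  refine pull_points lam S K y b hb hp0 N _ G ?_ hG hGA hyG
  intro x hx
  refine hprop.van ℂ _ ?_ ?_
  · intro i hi
    unfold Pool.Agent.H911.QD.ext
    rw [dif_neg (by omega)]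
  · have h1 : (fun j => Pool.Agent.H911.QD.ext N (proj lam x) (emb hwN j)) = proj lam x := by
      funext j
      exact ext_apply hwN (proj lam x) j
    rw [h1]
    have h2 : IsForm (ppull lam (w + 1) (map (algebraMap ℚ ℂ) F)) :=
      ⟨e, ppull_hom lam _ (hF.map _)⟩
    have h3 := hgp.all _ h2 (by
      rw [ppull_eval, ext_self]
      exact hFy) x hx
    have h4 := ppull_eval lam (w + 1) (map (algebraMap ℚ ℂ) F) x
    rw [ext_self] at h4
    exact h4.symm.trans h3

end proof

/-- **Lang's conjecture over `K` for varieties of dimension at most `m` follows from hypersurfaces of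
dimension `2 m - k` over `ℚ` with a singular locus of dimension less than `k`.** -/
theorem result (m k N : ℕ) (hk : k ≤ m) (hN : N + k = 2 * m + 1) :
    ∃ D₁ : ℕ → ℕ, ∀ K : Subfield ℂ, (∀ a ∈ K, IsAlgebraic ℚ a) →
    -- (1) implies (2)
    (Lang (N - 1) K → ∀ A : MvPolynomial (Fin (N + 1)) ℚ, (∃ e, A.IsHomogeneous e) →
      SmallSing k A → NoComponent K A) ∧
    ∀ δ : ℕ → ℕ, (∀ e, D₁ e ≤ δ e) →
      -- (2) implies (3)
      ((∀ A : MvPolynomial (Fin (N + 1)) ℚ, (∃ e, A.IsHomogeneous e) → SmallSing k A →
          NoComponent K A) →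
        ∀ (e : ℕ) (Q : Fin (N * (2 * N + 1)) → MvPolynomial (Fin (N + 1)) ℚ),
          (∀ t, (Q t).IsHomogeneous e) → SmallSing k (powerFormOver (δ e) Q) →
          NoComponent K (powerFormOver (δ e) Q)) ∧
      -- (3) implies (4)
      ((∀ (e : ℕ) (Q : Fin (N * (2 * N + 1)) → MvPolynomial (Fin (N + 1)) ℚ),
          (∀ t, (Q t).IsHomogeneous e) → SmallSing k (powerFormOver (δ e) Q) →
          NoComponent K (powerFormOver (δ e) Q)) → Lang m K) := by
  choose D₁ H using fun e => Pool.Agent.H911.KD.exists_hypq N e k (by omega)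
  refine ⟨D₁, fun K hK => ⟨fun h A hAh hA => forward K (by omega) (by omega) h A hAh hA,
    fun δ hδ => ⟨?_, ?_⟩⟩⟩
  · intro h e Q hQ hsm
    refine h _ ⟨e + δ e, ?_⟩ hsm
    refine IsHomogeneous.sum _ _ _ fun t _ => ?_
    refine (hQ t).mul ?_
    have h1 : (∑ j : Fin (N + 1), C (((t : ℕ) : ℚ) ^ (j : ℕ)) * X j :
        MvPolynomial (Fin (N + 1)) ℚ).IsHomogeneous 1 := by
      refine IsHomogeneous.sum _ _ _ fun j _ => ?_
      have h2 := (isHomogeneous_C (Fin (N + 1)) (((t : ℕ) : ℚ) ^ (j : ℕ))).mul
        (isHomogeneous_X ℚ j)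
      rwa [zero_add] at h2
    have h2 := h1.pow (δ e)
    rwa [one_mul] at h2
  · intro h
    exact backward (by omega) (by omega) H K hK hδ h

end Pool.Agent.Results.MP_2ae8fe_ag.SmallSingularLocus
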