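import Pool.Agent.H912.AE.Tws3

/-!
# Twists of the pull-backs of a projective variety under power maps

For a closed set `X ⊂ ℙ^n` over `ℚ`, given by an arbitrary set `S` of forms, and integers
`c_0, ..., c_n` let `X_{m,c} = {x ∈ ℙ^n : (c_0 x_0^m : ... : c_n x_n^m) ∈ X}`; for the hyperplane
`Σ y_i = 0` these are the diagonal hypersurfaces `Σ c_i x_i^m = 0`.  We prove that, unless `X`
contains one of the `n + 1` coordinate points, for `100%` of all `m` and `100%` of all `c` the
variety `X_{m,c}` has no rational point, and a similar result for the points over all number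
fields of degree at most `D`.
-/

set_option autoImplicit false

open Filter Topology

namespace Pool.Agent.Results.MP_2ae8fe_ag.Twists

/-- `x` is a vector of homogeneous coordinates of a point over `L` of
`X_{m,c} = {x : (c_0 x_0^m : ... : c_n x_n^m) ∈ X}`, where `X ⊂ ℙ^n` is the set of common zeros of
the forms in `S`. -/
def IsPt {L : Type} [Field L] [Algebra ℚ L] {n : ℕ} (S : Set (MvPolynomial (Fin (n + 1)) ℚ))
    (m : ℕ) (c : Fin (n + 1) → ℤ) (x : Fin (n + 1) → L) : Prop :=
  x ≠ 0 ∧ ∀ F ∈ S, MvPolynomial.aeval (fun i => (c i : L) * x i ^ m) F = 0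

/-- `X_{m,c}` has a point over some number field of degree at most `D`. -/
def HasPoint {n : ℕ} (S : Set (MvPolynomial (Fin (n + 1)) ℚ)) (D m : ℕ)
    (c : Fin (n + 1) → ℤ) : Prop :=
  ∃ (L : Type) (_ : Field L) (_ : Algebra ℚ L) (_ : FiniteDimensional ℚ L),
    Module.finrank ℚ L ≤ D ∧ ∃ x : Fin (n + 1) → L, IsPt S m c x

/-- The forms with coefficients in `ℚ` which vanish at the coordinatewise product of any `e` zeros
of `S`, over any field containing `ℚ`: the equations of the Hadamard power `X^(e)`, the Zariski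
closure of the set of coordinatewise products of `e` points of `X`. -/
def Had {n : ℕ} (S : Set (MvPolynomial (Fin (n + 1)) ℚ)) (e : ℕ) :
    Set (MvPolynomial (Fin (n + 1)) ℚ) :=
  {G | (∃ d, G.IsHomogeneous d) ∧ ∀ (L : Type) [Field L] [Algebra ℚ L]
    (z : Fin e → Fin (n + 1) → L), (∀ j, ∀ F ∈ S, MvPolynomial.aeval (z j) F = 0) →
      MvPolynomial.aeval (fun i => ∏ j, z j i) G = 0}

/-- The `i`-th coordinate point `(0 : ... : 1 : ... : 0)` is a zero of the forms in `S`. -/
def CoordPt {n : ℕ} (S : Set (MvPolynomial (Fin (n + 1)) ℚ)) (i : Fin (n + 1)) : Prop :=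
  ∀ F ∈ S, MvPolynomial.eval (Pi.single i 1) F = 0

open Classical in
/-- The number of the integral vectors `c` in the box `∏ [a_i, a_i + H_i)` for which `X_{m,c}` has
a point over some number field of degree at most `D`. -/
noncomputable def count {n : ℕ} (S : Set (MvPolynomial (Fin (n + 1)) ℚ)) (D m : ℕ)
    (a : Fin (n + 1) → ℤ) (H : Fin (n + 1) → ℕ) : ℕ :=
  ((Fintype.piFinset fun i => Finset.Ico (a i) (a i + H i)).filter
    (fun c => HasPoint S D m c)).card

/-- The set `A` of positive integers has natural density `δ`. -/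
def HasDensity (A : Set ℕ) (δ : ℝ) : Prop :=
  Tendsto (fun N : ℕ => ((A ∩ Set.Icc 1 N).ncard : ℝ) / N) atTop (𝓝 δ)

/-- the norm of a point of a twist -/
lemma norm_isPt {L : Type} [Field L] [Algebra ℚ L] [FiniteDimensional ℚ L] {n : ℕ}
    (S : Set (MvPolynomial (Fin (n + 1)) ℚ)) {m : ℕ} {c : Fin (n + 1) → ℤ}
    {x : Fin (n + 1) → L} (hx : IsPt S m c x) :
    (fun i => Algebra.norm ℚ (x i)) ≠ 0 ∧ ∀ G ∈ Had S (Module.finrank ℚ L),
      MvPolynomial.aeval (fun i => (c i : ℚ) ^ Module.finrank ℚ L * Algebra.norm ℚ (x i) ^ m) G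
        = 0 := by
  refine ⟨fun h => hx.1 ?_, fun G hG => ?_⟩
  · funext i
    have h1 := congrFun h i
    simp only [Pi.zero_apply] at h1
    exact Algebra.norm_eq_zero_iff.1 h1
  · let E := AlgebraicClosure ℚ
    have hcard : Fintype.card (L →ₐ[ℚ] E) = Module.finrank ℚ L := AlgHom.card ℚ L E
    let σ : Fin (Module.finrank ℚ L) ≃ (L →ₐ[ℚ] E) := (Fintype.equivFinOfCardEq hcard).symm
    have h1 := hG.2 E (fun j i => (c i : E) * σ j (x i) ^ m) (fun j F hF => by
      have h2 := congrArg (σ j) (hx.2 F hF)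
      rw [map_zero, ← AlgHom.comp_apply, MvPolynomial.comp_aeval] at h2
      have h3 : (fun i => (σ j) ((c i : L) * x i ^ m)) = fun i => (c i : E) * σ j (x i) ^ m := by
        funext i
        rw [map_mul, map_pow, map_intCast]
      rw [h3] at h2
      exact h2)
    have h2 : (fun i => ∏ j, ((c i : E) * σ j (x i) ^ m)) =
        fun i => algebraMap ℚ E ((c i : ℚ) ^ Module.finrank ℚ L * Algebra.norm ℚ (x i) ^ m) := by
      funext i
      rw [Finset.prod_mul_distrib, Finset.prod_const, Finset.card_univ, Fintype.card_fin,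
        Finset.prod_pow, map_mul, map_pow, map_pow, Algebra.norm_eq_prod_embeddings ℚ E (x i)]
      have h3 : algebraMap ℚ E (c i : ℚ) = (c i : E) := map_intCast _ _
      rw [h3, Equiv.prod_comp σ (fun τ : L →ₐ[ℚ] E => τ (x i))]
    rw [h2] at h1
    apply (algebraMap ℚ E).injective
    rw [map_zero, ← h1]
    exact (MvPolynomial.aeval_algebraMap_apply E _ G).symm

/-- **Main theorem.** Let `X ⊂ ℙ^n` be the set of zeros of an arbitrary set `S` of forms with
rational coefficients, and `X_{m,c} = {x : (c_0 x_0^m : ... : c_n x_n^m) ∈ X}`.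

1. Let `D ≥ 0`, and suppose that for `1 ≤ e ≤ D` the Hadamard power `X^(e)` does not contain a
   coordinate point.  For every `ε > 0` there are `H₀` and `N₀` such that for all `M ≥ N₀` the
   following holds for all `m < M` but at most `ε M`: in every box with sides at least `H₀`, the
   proportion of the vectors `c` for which `X_{m,c}` has a point over some number field of degree
   at most `D` is at most `ε`.  In particular, for every `ε` it is at most `ε` in all
   sufficiently large boxes, for all `m` in a set of natural density one.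
2. If `X` does not contain a coordinate point, then 1. holds for `D = 1`, that is for the rational
   points.  If `X` contains a coordinate point then all `X_{m,c}` (`m ≥ 1`) contain it. -/
theorem result {n : ℕ} (S : Set (MvPolynomial (Fin (n + 1)) ℚ))
    (hS : ∀ F ∈ S, ∃ d, F.IsHomogeneous d) :
    (∀ D : ℕ, ((∀ e ∈ Finset.Icc 1 D, ∀ i, ¬ CoordPt (Had S e) i) ∨
        (D = 1 ∧ ∀ i, ¬ CoordPt S i)) →
      (∀ ε : ℝ, 0 < ε → ∃ H₀ N₀ : ℕ, ∀ M ≥ N₀,
        (({m | m < M ∧ ¬ ∀ (a : Fin (n + 1) → ℤ) (H : Fin (n + 1) → ℕ), (∀ i, H₀ ≤ H i) →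
          (count S D m a H : ℝ) ≤ ε * ∏ i, (H i : ℝ)}.ncard : ℝ)) ≤ ε * M) ∧
      (∀ ε : ℝ, 0 < ε → HasDensity {m | ∃ H₀ : ℕ, ∀ (a : Fin (n + 1) → ℤ)
        (H : Fin (n + 1) → ℕ), (∀ i, H₀ ≤ H i) →
          (count S D m a H : ℝ) ≤ ε * ∏ i, (H i : ℝ)} 1)) ∧
    (∀ i, CoordPt S i → ∀ (m : ℕ) (c : Fin (n + 1) → ℤ), 1 ≤ m →
      IsPt S m c (Pi.single i 1 : Fin (n + 1) → ℚ)) := by
  classical
  have hcoord : ∀ i, ¬ CoordPt S i → ¬ CoordPt (Had S 1) i := by
    intro i hi h
    refine hi fun F hF => h F ⟨hS F hF, fun L _ _ z hz => ?_⟩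
    have h1 : (fun i => ∏ j, z j i) = z 0 := by
      funext i
      simp
    rw [h1]
    exact hz 0 F hF
  refine ⟨fun D hD' => ?_, fun i hi m c hm => ⟨?_, fun F hF => ?_⟩⟩
  · have hD : ∀ e ∈ Finset.Icc 1 D, ∀ i, ¬ CoordPt (Had S e) i := by
      rcases hD' with h | ⟨rfl, h⟩
      · exact h
      · intro e he i
        rw [Finset.Icc_self, Finset.mem_singleton] at he
        subst he
        exact hcoord i (h i)
    -- choose the forms
    have hex : ∀ e i, ∃ G : MvPolynomial (Fin (n + 1)) ℚ, e ∈ Finset.Icc 1 D →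
        G ∈ Had S e ∧ MvPolynomial.eval (Pi.single i 1) G ≠ 0 := by
      intro e i
      by_cases he : e ∈ Finset.Icc 1 D
      · have h1 := hD e he i
        unfold CoordPt at h1
        push Not at h1
        obtain ⟨G, hG, hG1⟩ := h1
        exact ⟨G, fun _ => ⟨hG, hG1⟩⟩
      · exact ⟨0, fun h => absurd h he⟩
    choose G hG using hex
    set T : ℕ → Fin (n + 1) → MvPolynomial (Fin (n + 1)) ℤ :=
      fun e i => Pool.Agent.H912.AE.intF (G e i) with hT
    have hdeg : ∀ e i, ∃ d, e ∈ Finset.Icc 1 D → (T e i).IsHomogeneous d := by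
      intro e i
      by_cases he : e ∈ Finset.Icc 1 D
      · obtain ⟨d, hd⟩ := (hG e i he).1.1
        exact ⟨d, fun _ => Pool.Agent.H912.AE.hom_intF hd⟩
      · exact ⟨0, fun h => absurd h he⟩
    choose δ hδ using hdeg
    have hT0 : ∀ e ∈ Finset.Icc 1 D, ∀ i, ∃ d' ≤ ∑ e ∈ Finset.Icc 1 D, ∑ i, δ e i,
        (T e i).IsHomogeneous d' := by
      intro e he i
      refine ⟨δ e i, ?_, hδ e i he⟩
      refine le_trans ?_ (Finset.single_le_sum (f := fun e => ∑ i, δ e i)
        (fun _ _ => Nat.zero_le _) he)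
      exact Finset.single_le_sum (f := fun i => δ e i) (fun _ _ => Nat.zero_le _)
        (Finset.mem_univ i)
    have hT1 : ∀ e ∈ Finset.Icc 1 D, ∀ i, MvPolynomial.eval (Pi.single i 1) (T e i) ≠ 0 := by
      intro e he i h0
      refine (hG e i he).2 ?_
      have h1 := Pool.Agent.H912.AE.aeval_ringHom (Int.castRingHom ℚ)
        (Pi.single i 1 : Fin (n + 1) → ℤ) (T e i)
      have h2 : (fun j => (Int.castRingHom ℚ) ((Pi.single i 1 : Fin (n + 1) → ℤ) j)) =
          (Pi.single i 1 : Fin (n + 1) → ℚ) := by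
        funext j
        by_cases hj : j = i
        · subst hj
          simp
        · simp [Pi.single_eq_of_ne hj]
      have h3 : MvPolynomial.aeval (Pi.single i 1 : Fin (n + 1) → ℤ) (T e i) = 0 := h0
      rw [h3, map_zero, h2] at h1
      exact (Pool.Agent.H912.AE.zero_iff _ (G e i)).1 h1.symm
    have key := fun (ε : ℝ) (hε : 0 < ε) => Pool.Agent.H912.AE.twists T hT0 hT1 hε
    have hsub : ∀ (m : ℕ) (c : Fin (n + 1) → ℤ), HasPoint S D m c →
        Pool.Agent.H912.AE.MP D T m c := by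
      rintro m c ⟨L, _, _, _, hL, x, hx⟩
      obtain ⟨h1, h2⟩ := norm_isPt S hx
      have he : Module.finrank ℚ L ∈ Finset.Icc 1 D :=
        Finset.mem_Icc.2 ⟨Module.finrank_pos, hL⟩
      refine ⟨Module.finrank ℚ L, he, fun i => Algebra.norm ℚ (x i), h1, fun i => ?_⟩
      exact (Pool.Agent.H912.AE.zero_iff _ (G _ i)).2 (h2 _ (hG _ i he).1)
    have hcount : ∀ (m : ℕ) (a : Fin (n + 1) → ℤ) (H : Fin (n + 1) → ℕ), count S D m a H ≤
        ((Fintype.piFinset fun i => Finset.Ico (a i) (a i + H i)).filter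
          (fun c => Pool.Agent.H912.AE.MP D T m c)).card := by
      intro m a H
      refine Finset.card_le_card fun c hc => ?_
      rw [Finset.mem_filter] at hc ⊢
      exact ⟨hc.1, hsub m c hc.2⟩
    have main : ∀ ε : ℝ, 0 < ε → ∃ H₀ N₀ : ℕ, ∀ M ≥ N₀,
        ((((Finset.range M).filter (fun m => ¬ ∀ (a : Fin (n + 1) → ℤ) (H : Fin (n + 1) → ℕ),
          (∀ i, H₀ ≤ H i) → (count S D m a H : ℝ) ≤ ε * ∏ i, (H i : ℝ))).card : ℝ)) ≤ ε * M := by
      intro ε hε
      obtain ⟨H₀, N₀, h⟩ := key ε hε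
      refine ⟨H₀, N₀, fun M hM => le_trans ?_ (h M hM)⟩
      have h1 : (Finset.range M).filter (fun m => ¬ ∀ (a : Fin (n + 1) → ℤ)
          (H : Fin (n + 1) → ℕ), (∀ i, H₀ ≤ H i) →
            (count S D m a H : ℝ) ≤ ε * ∏ i, (H i : ℝ)) ⊆
          (Finset.range M).filter (fun m =>
            ¬ ∀ (a : Fin (n + 1) → ℤ) (H : Fin (n + 1) → ℕ), (∀ i, H₀ ≤ H i) →
          (((Fintype.piFinset fun i => Finset.Ico (a i) (a i + H i)).filter
            (fun c => Pool.Agent.H912.AE.MP D T m c)).card : ℝ) ≤ ε * ∏ i, (H i : ℝ)) := by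
        intro m hm
        rw [Finset.mem_filter] at hm ⊢
        refine ⟨hm.1, fun h2 => hm.2 fun a H hH => le_trans ?_ (h2 a H hH)⟩
        exact_mod_cast hcount m a H
      exact_mod_cast Finset.card_le_card h1
    refine ⟨fun ε hε => ?_, fun ε hε => ?_⟩
    · obtain ⟨H₀, N₀, h⟩ := main ε hε
      refine ⟨H₀, N₀, fun M hM => le_trans (le_of_eq ?_) (h M hM)⟩
      rw [← Set.ncard_coe_finset]
      congr 2
      ext m
      simp only [Set.mem_ofPred_eq, Finset.coe_filter, Finset.mem_range]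
    · refine Pool.Agent.H912.AE.full_of fun ε' hε' => ?_
      obtain ⟨H₀, N₀, h⟩ := main (min ε ε') (lt_min hε hε')
      refine ⟨N₀, fun M hM => ?_⟩
      have h1 : (Finset.range M).filter (fun m => m ∉ {m | ∃ H₀ : ℕ, ∀ (a : Fin (n + 1) → ℤ)
          (H : Fin (n + 1) → ℕ), (∀ i, H₀ ≤ H i) →
            (count S D m a H : ℝ) ≤ ε * ∏ i, (H i : ℝ)}) ⊆
          (Finset.range M).filter (fun m => ¬ ∀ (a : Fin (n + 1) → ℤ) (H : Fin (n + 1) → ℕ),
          (∀ i, H₀ ≤ H i) → (count S D m a H : ℝ) ≤ min ε ε' * ∏ i, (H i : ℝ)) := by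
        intro m hm
        rw [Finset.mem_filter] at hm ⊢
        refine ⟨hm.1, fun h2 => hm.2 ⟨H₀, fun a H hH => (h2 a H hH).trans ?_⟩⟩
        exact mul_le_mul_of_nonneg_right (min_le_left _ _)
          (Finset.prod_nonneg fun i _ => by positivity)
      have h2 : (((Finset.range M).filter (fun m => m ∉ {m | ∃ H₀ : ℕ,
          ∀ (a : Fin (n + 1) → ℤ) (H : Fin (n + 1) → ℕ), (∀ i, H₀ ≤ H i) →
            (count S D m a H : ℝ) ≤ ε * ∏ i, (H i : ℝ)})).card : ℝ) ≤ min ε ε' * M := by
        refine le_trans ?_ (h M hM)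
        exact_mod_cast Finset.card_le_card h1
      exact h2.trans (mul_le_mul_of_nonneg_right (min_le_right _ _) (by positivity))
  · intro h
    have h1 := congrFun h i
    simp at h1
  · obtain ⟨d, hd⟩ := hS F hF
    have h1 : (fun j => (c j : ℚ) * (Pi.single i 1 : Fin (n + 1) → ℚ) j ^ m) =
        fun j => (c i : ℚ) * (Pi.single i 1 : Fin (n + 1) → ℚ) j := by
      funext j
      by_cases hj : j = i
      · subst hj
        simp
      · simp [Pi.single_eq_of_ne hj, zero_pow (by omega : m ≠ 0)]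
    have h2 : MvPolynomial.eval₂ (RingHom.id ℚ) (Pi.single i 1 : Fin (n + 1) → ℚ) F = 0 := hi F hF
    have h3 := Pool.Agent.H912.AE.eval₂_smul_hom (RingHom.id ℚ) hd (c i : ℚ)
      (Pi.single i 1 : Fin (n + 1) → ℚ)
    rw [h1]
    refine h3.trans ?_
    rw [h2, mul_zero]

end Pool.Agent.Results.MP_2ae8fe_ag.Twists
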